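import Pool.Agent.Work.MP_8a95ee_gt.Tup.Chains

/-!
# Removal of the families `F_{P,Q}` with `P ∪ Q` of size at least three

`famK`: sets of cliques with a common vertex.  `famF P Q`: sets of cliques of the form `P ∪ τ`,
`Q ∪ τ` with all of `τ` adjacent to all of `P ∪ Q`.  A cycle of `famK` that bounds in the union of
`famK` and all the `famF P Q` bounds already in the union `famA` of `famK`, the `famF P Q` with
`P ∪ Q` a clique, and the `famF {a} {b}` with `a`, `b` different and not adjacent.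
-/

namespace MP8a95ee.Tup

variable {V : Type*} [DecidableEq V] (G : SimpleGraph V) (U : Finset V)

/-- nonempty cliques with vertices in `U` -/
def Cl (s : Finset V) : Prop := s.Nonempty ∧ s ⊆ U ∧ G.IsClique (s : Set V)

/-- sets of cliques with a common vertex -/
def famK : Set (Set (Finset V)) := {X | (∀ s ∈ X, Cl G U s) ∧ ∃ a, ∀ s ∈ X, a ∈ s}

/-- the entries of the family `famF P Q` -/
def Ent (P Q s : Finset V) : Prop :=
  Cl G U s ∧ (∀ a ∈ s, a ∉ P ∪ Q → ∀ c ∈ P ∪ Q, G.Adj a c) ∧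
    ((∀ a ∈ P ∪ Q, (a ∈ s ↔ a ∈ P)) ∨ (∀ a ∈ P ∪ Q, (a ∈ s ↔ a ∈ Q)))

/-- sets of entries `P ∪ τ`, `Q ∪ τ` with `τ` adjacent to `P ∪ Q` -/
def famF (P Q : Finset V) : Set (Set (Finset V)) := {X | ∀ s ∈ X, Ent G U P Q s}

/-- the family after removal -/
def famA : Set (Set (Finset V)) :=
  {X | X ∈ famK G U ∨ (∃ P Q : Finset V, P.Nonempty ∧ Q.Nonempty ∧ Disjoint P Q ∧ P ∪ Q ⊆ U ∧
      G.IsClique ((P ∪ Q : Finset V) : Set V) ∧ X ∈ famF G U P Q) ∨
    ∃ a b : V, a ≠ b ∧ a ∈ U ∧ b ∈ U ∧ ¬ G.Adj a b ∧ X ∈ famF G U {a} {b}}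

/-- the large family -/
def famKK : Set (Set (Finset V)) :=
  {X | X ∈ famK G U ∨ ∃ P Q : Finset V, P.Nonempty ∧ Q.Nonempty ∧ Disjoint P Q ∧ X ∈ famF G U P Q}

variable {G} {U}

theorem ent_iff {P Q : Finset V} {s : Finset V} :
    Ent G U P Q s ↔ Cl G U s ∧ ∃ τ : Finset V, (∀ a ∈ τ, (∀ b ∈ P, G.Adj a b) ∧ ∀ b ∈ Q, G.Adj a b) ∧
      (s = P ∪ τ ∨ s = Q ∪ τ) := by
  constructor
  · rintro ⟨h1, h2, h3⟩
    refine ⟨h1, s \ (P ∪ Q), ?_, ?_⟩
    · intro a ha
      rw [Finset.mem_sdiff] at ha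
      exact ⟨fun b hb => h2 a ha.1 ha.2 b (Finset.mem_union_left _ hb),
        fun b hb => h2 a ha.1 ha.2 b (Finset.mem_union_right _ hb)⟩
    · rcases h3 with h3 | h3
      · left
        ext a
        rw [Finset.mem_union, Finset.mem_sdiff]
        constructor
        · intro ha
          by_cases hc : a ∈ P ∪ Q
          · exact Or.inl ((h3 a hc).1 ha)
          · exact Or.inr ⟨ha, hc⟩
        · rintro (ha | ha)
          · exact (h3 a (Finset.mem_union_left _ ha)).2 ha
          · exact ha.1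
      · right
        ext a
        rw [Finset.mem_union, Finset.mem_sdiff]
        constructor
        · intro ha
          by_cases hc : a ∈ P ∪ Q
          · exact Or.inl ((h3 a hc).1 ha)
          · exact Or.inr ⟨ha, hc⟩
        · rintro (ha | ha)
          · exact (h3 a (Finset.mem_union_right _ ha)).2 ha
          · exact ha.1
  · rintro ⟨h1, τ, h2, h3⟩
    have hτ : ∀ a ∈ τ, a ∉ P ∪ Q := by
      intro a ha hc
      rcases Finset.mem_union.1 hc with hc | hc
      · exact G.irrefl ((h2 a ha).1 a hc)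
      · exact G.irrefl ((h2 a ha).2 a hc)
    refine ⟨h1, ?_, ?_⟩
    · intro a ha hac c hc
      have haτ : a ∈ τ := by
        rcases h3 with h3 | h3
        · rw [h3, Finset.mem_union] at ha
          exact ha.resolve_left fun h => hac (Finset.mem_union_left _ h)
        · rw [h3, Finset.mem_union] at ha
          exact ha.resolve_left fun h => hac (Finset.mem_union_right _ h)
      rcases Finset.mem_union.1 hc with hc | hc
      · exact (h2 a haτ).1 c hc
      · exact (h2 a haτ).2 c hc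
    · rcases h3 with h3 | h3
      · left
        intro a ha
        rw [h3, Finset.mem_union]
        exact ⟨fun h => h.resolve_right fun h' => hτ a h' ha, Or.inl⟩
      · right
        intro a ha
        rw [h3, Finset.mem_union]
        exact ⟨fun h => h.resolve_right fun h' => hτ a h' ha, Or.inl⟩

omit [DecidableEq V] in
theorem Cl.mono {s t : Finset V} (hs : Cl G U s) (hts : t ⊆ s) (ht : t.Nonempty) : Cl G U t :=
  ⟨ht, hts.trans hs.2.1, hs.2.2.subset (by exact_mod_cast hts)⟩

theorem Ent.symm {P Q s : Finset V} (h : Ent G U P Q s) : Ent G U Q P s := by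
  obtain ⟨h1, h2, h3⟩ := h
  rw [Finset.union_comm] at h2 h3
  exact ⟨h1, h2, h3.symm⟩

theorem famF_symm (P Q : Finset V) : famF G U P Q = famF G U Q P := by
  ext X
  exact ⟨fun h s hs => (h s hs).symm, fun h s hs => (h s hs).symm⟩

omit [DecidableEq V] in
theorem lower_famK : IsLowerSet (famK G U) := by
  rintro X Y hYX ⟨h1, a, ha⟩
  exact ⟨fun s hs => h1 s (hYX hs), a, fun s hs => ha s (hYX hs)⟩

theorem lower_famF (P Q : Finset V) : IsLowerSet (famF G U P Q) := by
  intro X Y hYX h s hs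
  exact h s (hYX hs)

/-- both kinds of entries occur if there is no common vertex -/
theorem both {P Q : Finset V} (hP : P.Nonempty) (hQ : Q.Nonempty) {X : Set (Finset V)}
    (hX : X ∈ famF G U P Q) (hK : X ∉ famK G U) :
    (∃ s ∈ X, ∀ a ∈ P ∪ Q, (a ∈ s ↔ a ∈ P)) ∧ (∃ s ∈ X, ∀ a ∈ P ∪ Q, (a ∈ s ↔ a ∈ Q)) := by
  obtain ⟨p, hp⟩ := hP
  obtain ⟨q, hq⟩ := hQ
  constructor
  · by_contra hcon
    push Not at hcon
    apply hK
    refine ⟨fun s hs => (hX s hs).1, q, ?_⟩
    intro s hs
    rcases (hX s hs).2.2 with h | h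
    · obtain ⟨a, ha, ha'⟩ := hcon s hs
      have := h a ha
      tauto
    · exact (h q (Finset.mem_union_right _ hq)).2 hq
  · by_contra hcon
    push Not at hcon
    apply hK
    refine ⟨fun s hs => (hX s hs).1, p, ?_⟩
    intro s hs
    rcases (hX s hs).2.2 with h | h
    · exact (h p (Finset.mem_union_left _ hp)).2 hp
    · obtain ⟨a, ha, ha'⟩ := hcon s hs
      have := h a ha
      tauto

/-- indecomposable pairs that are not small -/
def Ind (P Q : Finset V) : Prop :=
  P.Nonempty ∧ Q.Nonempty ∧ (Disjoint P Q ∧ P ∪ Q ⊆ U) ∧ (∃ p ∈ P, ∃ q ∈ Q, ¬ G.Adj p q) ∧ 3 ≤ (P ∪ Q).card ∧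
    ∀ D ⊆ P ∪ Q, D.Nonempty → (∀ a ∈ D, ∀ c ∈ (P ∪ Q) \ D, G.Adj a c) → D = P ∪ Q

theorem reduce (X : Set (Finset V)) : ∀ (k : ℕ) (P Q : Finset V), (P ∪ Q).card = k →
    P.Nonempty → Q.Nonempty → Disjoint P Q → X ∈ famF G U P Q →
    X ∈ famA G U ∨ ∃ P' Q' : Finset V, Ind (G := G) (U := U) P' Q' ∧ X ∈ famF G U P' Q' := by
  intro k
  induction k using Nat.strong_induction_on with
  | _ k ih =>
    intro P Q hk hP hQ hd hX
    by_cases hK : X ∈ famK G U
    · exact Or.inl (Or.inl hK)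
    obtain ⟨⟨s1, hs1, h1⟩, ⟨s2, hs2, h2⟩⟩ := both hP hQ hX hK
    have hCU : P ∪ Q ⊆ U := by
      intro a ha
      rcases Finset.mem_union.1 ha with h | h
      · exact (hX s1 hs1).1.2.1 ((h1 a ha).2 h)
      · exact (hX s2 hs2).1.2.1 ((h2 a ha).2 h)
    by_cases hc : G.IsClique ((P ∪ Q : Finset V) : Set V)
    · exact Or.inl (Or.inr (Or.inl ⟨P, Q, hP, hQ, hd, hCU, hc, hX⟩))
    have hcP : ∀ a ∈ P, ∀ b ∈ P, a ≠ b → G.Adj a b := by
      intro a ha b hb hab
      have h := (hX s1 hs1).1.2.2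
      exact h (by exact_mod_cast (h1 a (Finset.mem_union_left _ ha)).2 ha)
        (by exact_mod_cast (h1 b (Finset.mem_union_left _ hb)).2 hb) hab
    have hcQ : ∀ a ∈ Q, ∀ b ∈ Q, a ≠ b → G.Adj a b := by
      intro a ha b hb hab
      have h := (hX s2 hs2).1.2.2
      exact h (by exact_mod_cast (h2 a (Finset.mem_union_right _ ha)).2 ha)
        (by exact_mod_cast (h2 b (Finset.mem_union_right _ hb)).2 hb) hab
    have hpq : ∃ p ∈ P, ∃ q ∈ Q, ¬ G.Adj p q := by
      by_contra hcon
      push Not at hcon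
      apply hc
      intro a ha b hb hab
      rw [Finset.mem_coe, Finset.mem_union] at ha hb
      rcases ha with ha | ha <;> rcases hb with hb | hb
      · exact hcP a ha b hb hab
      · exact hcon a ha b hb
      · exact (hcon b hb a ha).symm
      · exact hcQ a ha b hb hab
    obtain ⟨p, hp, q, hq, hnpq⟩ := hpq
    have hpneq : p ≠ q := fun h => (Finset.disjoint_left.1 hd hp) (h ▸ hq)
    by_cases h3 : 3 ≤ (P ∪ Q).card
    swap
    · left; right; right
      have hsub : ({p, q} : Finset V) ⊆ P ∪ Q := by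
        intro a ha
        rw [Finset.mem_insert, Finset.mem_singleton] at ha
        rcases ha with rfl | rfl
        · exact Finset.mem_union_left _ hp
        · exact Finset.mem_union_right _ hq
      have heq : ({p, q} : Finset V) = P ∪ Q := by
        apply Finset.eq_of_subset_of_card_le hsub
        rw [Finset.card_pair hpneq]
        omega
      have hPp : P = {p} := by
        ext a
        rw [Finset.mem_singleton]
        constructor
        · intro ha
          have : a ∈ ({p, q} : Finset V) := heq ▸ Finset.mem_union_left _ ha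
          rw [Finset.mem_insert, Finset.mem_singleton] at this
          rcases this with h | h
          · exact h
          · exact absurd hq (h ▸ Finset.disjoint_left.1 hd ha)
        · rintro rfl; exact hp
      have hQq : Q = {q} := by
        ext a
        rw [Finset.mem_singleton]
        constructor
        · intro ha
          have : a ∈ ({p, q} : Finset V) := heq ▸ Finset.mem_union_right _ ha
          rw [Finset.mem_insert, Finset.mem_singleton] at this
          rcases this with h | h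
          · exact absurd ha (h ▸ Finset.disjoint_left.1 hd hp)
          · exact h
        · rintro rfl; exact hq
      exact ⟨p, q, hpneq, hCU (Finset.mem_union_left _ hp), hCU (Finset.mem_union_right _ hq), hnpq,
        hPp ▸ hQq ▸ hX⟩
    by_cases hind : ∀ D ⊆ P ∪ Q, D.Nonempty → (∀ a ∈ D, ∀ c ∈ (P ∪ Q) \ D, G.Adj a c) → D = P ∪ Q
    · exact Or.inr ⟨P, Q, ⟨hP, hQ, ⟨hd, hCU⟩, ⟨p, hp, q, hq, hnpq⟩, h3, hind⟩, hX⟩
    push Not at hind
    -- a decomposition with `p` and `q` on the same side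
    have hdec : ∃ D ⊆ P ∪ Q, p ∈ D ∧ q ∈ D ∧ D ≠ P ∪ Q ∧
        (∀ a ∈ D, ∀ c ∈ (P ∪ Q) \ D, G.Adj a c) := by
      obtain ⟨D, hD, hDne, hDadj, hDC⟩ := hind
      have hpC : p ∈ P ∪ Q := Finset.mem_union_left _ hp
      have hqC : q ∈ P ∪ Q := Finset.mem_union_right _ hq
      by_cases hpD : p ∈ D
      · refine ⟨D, hD, hpD, ?_, hDC, hDadj⟩
        by_contra hqD
        exact hnpq (hDadj p hpD q (Finset.mem_sdiff.2 ⟨hqC, hqD⟩))
      · refine ⟨(P ∪ Q) \ D, Finset.sdiff_subset, Finset.mem_sdiff.2 ⟨hpC, hpD⟩, ?_, ?_, ?_⟩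
        · refine Finset.mem_sdiff.2 ⟨hqC, ?_⟩
          intro hqD
          exact hnpq (hDadj q hqD p (Finset.mem_sdiff.2 ⟨hpC, hpD⟩)).symm
        · intro h
          obtain ⟨x, hx⟩ := hDne
          have : x ∈ (P ∪ Q) \ D := by rw [h]; exact hD hx
          exact (Finset.mem_sdiff.1 this).2 hx
        · intro a ha c hc
          rw [Finset.mem_sdiff, Finset.mem_sdiff, not_and, not_not] at hc
          exact (hDadj c (hc.2 hc.1) a ha).symm
    obtain ⟨D, hD, hpD, hqD, hDC, hDadj⟩ := hdec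
    have hunion : P ∩ D ∪ Q ∩ D = D := by
      ext a
      rw [Finset.mem_union, Finset.mem_inter, Finset.mem_inter]
      constructor
      · rintro (h | h) <;> exact h.2
      · intro h
        rcases Finset.mem_union.1 (hD h) with h' | h'
        · exact Or.inl ⟨h', h⟩
        · exact Or.inr ⟨h', h⟩
    have hlt : D.card < k := by
      rw [← hk]
      exact Finset.card_lt_card (lt_of_le_of_ne hD hDC)
    refine ih D.card hlt (P ∩ D) (Q ∩ D) (by rw [hunion]) ⟨p, Finset.mem_inter.2 ⟨hp, hpD⟩⟩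
      ⟨q, Finset.mem_inter.2 ⟨hq, hqD⟩⟩
      (hd.mono Finset.inter_subset_left Finset.inter_subset_left) ?_
    intro s hs
    obtain ⟨e1, e2, e3⟩ := hX s hs
    refine ⟨e1, ?_, ?_⟩
    · rw [hunion]
      intro a ha haD c hc
      by_cases haC : a ∈ P ∪ Q
      · exact (hDadj c hc a (Finset.mem_sdiff.2 ⟨haC, haD⟩)).symm
      · exact e2 a ha haC c (hD hc)
    · rw [hunion]
      rcases e3 with e3 | e3
      · left
        intro a ha
        rw [e3 a (hD ha), Finset.mem_inter]
        tauto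
      · right
        intro a ha
        rw [e3 a (hD ha), Finset.mem_inter]
        tauto

/-! ### The removal step -/

/-- the pairs that are still present -/
def Pres (B : Finset (Finset V × Finset V)) (P Q : Finset V) : Prop :=
  P.Nonempty ∧ Q.Nonempty ∧ (Disjoint P Q ∧ P ∪ Q ⊆ U) ∧
    (G.IsClique ((P ∪ Q : Finset V) : Set V) ∨ (∃ a b : V, a ≠ b ∧ ¬ G.Adj a b ∧ P = {a} ∧ Q = {b}) ∨
      ((P, Q) ∈ B ∧ Ind (G := G) (U := U) P Q))

/-- the current family -/
def famR (B : Finset (Finset V × Finset V)) : Set (Set (Finset V)) :=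
  {X | X ∈ famK G U ∨ ∃ P Q, Pres (G := G) (U := U) B P Q ∧ X ∈ famF G U P Q}

theorem lower_famR (B : Finset (Finset V × Finset V)) : IsLowerSet (famR (G := G) (U := U) B) := by
  rintro X Y hYX (h | ⟨P, Q, h1, h2⟩)
  · exact Or.inl (lower_famK hYX h)
  · exact Or.inr ⟨P, Q, h1, lower_famF P Q hYX h2⟩

/-- the entries of the acyclic family -/
def EE (P Q : Finset V) (p q : V) (s : Finset V) : Prop :=
  (∀ a ∈ s, a ∉ P ∪ Q → ∀ c ∈ P ∪ Q, G.Adj a c) ∧
    (s ∩ (P ∪ Q) = ∅ ∨ s ∩ (P ∪ Q) = P ∨ s ∩ (P ∪ Q) = {p} ∨ s ∩ (P ∪ Q) = {q} ∨ s ∩ (P ∪ Q) = Q)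

/-- the second condition of the acyclic family -/
def YY (B : Finset (Finset V × Finset V)) (P Q : Finset V) (p q : V) (X : Set (Finset V)) : Prop :=
  X ∈ famK G U ∨ X ∈ famF G U {p} {q} ∨
    ∃ P' Q', Pres (G := G) (U := U) B P' Q' ∧ (∀ a ∈ P' ∪ Q', ∀ c ∈ P ∪ Q, G.Adj a c) ∧ X ∈ famF G U P' Q'

/-- the acyclic family -/
def famY (B : Finset (Finset V × Finset V)) (P Q : Finset V) (p q : V) : Set (Set (Finset V)) :=
  {X | (∀ s ∈ X, EE (G := G) P Q p q s) ∧ YY (G := G) (U := U) B P Q p q X}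

theorem YY.mono {B : Finset (Finset V × Finset V)} {P Q : Finset V} {p q : V}
    {X Y : Set (Finset V)} (hYX : Y ⊆ X) (h : YY (G := G) (U := U) B P Q p q X) :
    YY (G := G) (U := U) B P Q p q Y := by
  rcases h with h | h | ⟨P', Q', h1, h2, h3⟩
  · exact Or.inl (lower_famK hYX h)
  · exact Or.inr (Or.inl (lower_famF _ _ hYX h))
  · exact Or.inr (Or.inr ⟨P', Q', h1, h2, lower_famF _ _ hYX h3⟩)

theorem lower_famY (B : Finset (Finset V × Finset V)) (P Q : Finset V) (p q : V) :
    IsLowerSet (famY (G := G) (U := U) B P Q p q) := by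
  rintro X Y hYX ⟨h1, h2⟩
  exact ⟨fun s hs => h1 s (hYX hs), h2.mono hYX⟩

/-- replace the part of `s` in `C` by `α` -/
def repl (C α s : Finset V) : Finset V := α ∪ (s \ C)

theorem repl_inter {C α s : Finset V} (h : α ⊆ C) : repl C α s ∩ C = α := by
  ext a
  simp only [repl, Finset.mem_inter, Finset.mem_union, Finset.mem_sdiff]
  constructor
  · rintro ⟨h1 | h1, h2⟩
    · exact h1
    · exact absurd h2 h1.2
  · intro ha
    exact ⟨Or.inl ha, h ha⟩

theorem mem_repl_not {C α s : Finset V} (h : α ⊆ C) {a : V} (ha : a ∉ C) :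
    a ∈ repl C α s ↔ a ∈ s := by
  simp only [repl, Finset.mem_union, Finset.mem_sdiff]
  constructor
  · rintro (h1 | h1)
    · exact absurd (h h1) ha
    · exact h1.1
  · intro h1
    exact Or.inr ⟨h1, ha⟩

theorem ent_repl {P' Q' C α s : Finset V} (h : ∀ a ∈ P' ∪ Q', ∀ c ∈ C, G.Adj a c)
    (hs : Ent G U P' Q' s) (hα : α ⊆ C) (hcl : Cl G U (repl C α s)) : Ent G U P' Q' (repl C α s) := by
  have hdis : ∀ a ∈ P' ∪ Q', a ∉ C := fun a ha hc => G.irrefl (h a ha a hc)
  refine ⟨hcl, ?_, ?_⟩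
  · intro a ha haC c hc
    by_cases haC' : a ∈ C
    · exact (h c hc a haC').symm
    · exact hs.2.1 a ((mem_repl_not hα haC').1 ha) haC c hc
  · rcases hs.2.2 with h3 | h3
    · left
      intro a ha
      rw [mem_repl_not hα (hdis a ha), h3 a ha]
    · right
      intro a ha
      rw [mem_repl_not hα (hdis a ha), h3 a ha]

/-- the first contraction: `P` goes to `p` and `Q` to `q` -/
def al1 (P Q : Finset V) (p q : V) (σ : Finset V) : Finset V :=
  if σ = P then {p} else if σ = Q then {q} else σ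

/-- the second contraction: a missing part becomes `p` -/
def al2 (p : V) (σ : Finset V) : Finset V := if σ = ∅ then {p} else σ

/-- the first contraction on entries -/
def con1 (P Q : Finset V) (p q : V) (s : Finset V) : Finset V :=
  repl (P ∪ Q) (al1 P Q p q (s ∩ (P ∪ Q))) s

/-- the second contraction on entries -/
def con2 (P Q : Finset V) (p : V) (s : Finset V) : Finset V :=
  repl (P ∪ Q) (al2 p (s ∩ (P ∪ Q))) s

theorem repl_self (C s : Finset V) : repl C (s ∩ C) s = s := by
  ext a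
  simp only [repl, Finset.mem_union, Finset.mem_inter, Finset.mem_sdiff]
  tauto

section step

variable {B : Finset (Finset V × Finset V)} {P Q : Finset V} {p q : V}

theorem al1_sub (hp : p ∈ P) (hq : q ∈ Q) (σ : Finset V) : al1 P Q p q σ ⊆ σ := by
  unfold al1
  split_ifs with h1 h2
  · rw [h1]; exact Finset.singleton_subset_iff.2 hp
  · rw [h2]; exact Finset.singleton_subset_iff.2 hq
  · exact subset_rfl

theorem con1_sub (hp : p ∈ P) (hq : q ∈ Q) (s : Finset V) : con1 P Q p q s ⊆ s := by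
  intro a ha
  simp only [con1, repl, Finset.mem_union, Finset.mem_sdiff] at ha
  rcases ha with ha | ha
  · exact (Finset.mem_inter.1 (al1_sub hp hq _ ha)).1
  · exact ha.1

theorem al1_subC (hp : p ∈ P) (hq : q ∈ Q) (s : Finset V) :
    al1 P Q p q (s ∩ (P ∪ Q)) ⊆ P ∪ Q :=
  (al1_sub hp hq _).trans Finset.inter_subset_right

theorem al1_ne (σ : Finset V) (h : σ.Nonempty) : (al1 P Q p q σ).Nonempty := by
  unfold al1
  split_ifs
  · exact Finset.singleton_nonempty _
  · exact Finset.singleton_nonempty _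
  · exact h

theorem con1_cl (hp : p ∈ P) (hq : q ∈ Q) {s : Finset V} (hs : Cl G U s) :
    Cl G U (con1 P Q p q s) := by
  refine hs.mono (con1_sub hp hq s) ?_
  by_cases h : (s ∩ (P ∪ Q)).Nonempty
  · obtain ⟨a, ha⟩ := al1_ne (P := P) (Q := Q) (p := p) (q := q) _ h
    exact ⟨a, Finset.mem_union_left _ ha⟩
  · obtain ⟨a, ha⟩ := hs.1
    refine ⟨a, Finset.mem_union_right _ (Finset.mem_sdiff.2 ⟨ha, ?_⟩)⟩
    intro haC
    exact h ⟨a, Finset.mem_inter.2 ⟨ha, haC⟩⟩

theorem con1_EE (hp : p ∈ P) (hq : q ∈ Q) {s : Finset V} (hs : EE (G := G) P Q p q s) :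
    EE (G := G) P Q p q (con1 P Q p q s) := by
  refine ⟨?_, ?_⟩
  · intro a ha haC c hc
    exact hs.1 a ((mem_repl_not (al1_subC hp hq s) haC).1 ha) haC c hc
  · rw [con1, repl_inter (al1_subC hp hq s)]
    unfold al1
    split_ifs with h1 h2
    · exact Or.inr (Or.inr (Or.inl rfl))
    · exact Or.inr (Or.inr (Or.inr (Or.inl rfl)))
    · exact hs.2

theorem mem_inter_of {C s : Finset V} {v : V} (h : v ∈ C) (h' : v ∈ s) : v ∈ s ∩ C :=
  Finset.mem_inter.2 ⟨h', h⟩

theorem step1 (hp : p ∈ P) (hq : q ∈ Q) (hd : Disjoint P Q) {X : Set (Finset V)}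
    (hX : X ∈ famY (G := G) (U := U) B P Q p q) : X ∪ con1 P Q p q '' X ∈ famY (G := G) (U := U) B P Q p q := by
  obtain ⟨hE, hY⟩ := hX
  have hpQ : p ∉ Q := Finset.disjoint_left.1 hd hp
  have hqP : q ∉ P := Finset.disjoint_right.1 hd hq
  refine ⟨?_, ?_⟩
  · rintro s (hs | ⟨s, hs, rfl⟩)
    · exact hE s hs
    · exact con1_EE hp hq (hE s hs)
  rcases hY with ⟨hcl, v, hv⟩ | hF | ⟨P', Q', h1, h2, h3⟩
  · left
    refine ⟨?_, ?_⟩
    · rintro s (hs | ⟨s, hs, rfl⟩)
      · exact hcl s hs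
      · exact con1_cl hp hq (hcl s hs)
    by_cases hvC : v ∈ P ∪ Q
    · -- the common vertex is in `C`
      rcases Finset.mem_union.1 hvC with hvP | hvQ
      · have hvQ : v ∉ Q := Finset.disjoint_left.1 hd hvP
        have hvq : v ≠ q := fun h => hvQ (h ▸ hq)
        have key : ∀ s ∈ X, s ∩ (P ∪ Q) = P ∨ s ∩ (P ∪ Q) = {p} := by
          intro s hs
          have hvs := mem_inter_of hvC (hv s hs)
          rcases (hE s hs).2 with h | h | h | h | h
          · rw [h] at hvs; exact absurd hvs (Finset.notMem_empty _)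
          · exact Or.inl h
          · exact Or.inr h
          · rw [h, Finset.mem_singleton] at hvs; exact absurd hvs hvq
          · rw [h] at hvs; exact absurd hvs hvQ
        refine ⟨p, ?_⟩
        rintro s (hs | ⟨s, hs, rfl⟩)
        · rcases key s hs with h | h
          · exact (Finset.mem_inter.1 (by rw [h]; exact hp : p ∈ s ∩ (P ∪ Q))).1
          · exact (Finset.mem_inter.1 (h ▸ Finset.mem_singleton_self p : p ∈ s ∩ (P ∪ Q))).1
        · refine Finset.mem_union_left _ ?_
          unfold al1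
          rcases key s hs with h | h
          · rw [if_pos h]; exact Finset.mem_singleton_self p
          · rw [h]
            split_ifs with e1 e2
            · exact Finset.mem_singleton_self p
            · exact absurd (e2 ▸ Finset.mem_singleton_self p : p ∈ Q) hpQ
            · exact Finset.mem_singleton_self p
      · have hvP : v ∉ P := Finset.disjoint_right.1 hd hvQ
        have hvp : v ≠ p := fun h => hvP (h ▸ hp)
        have key : ∀ s ∈ X, s ∩ (P ∪ Q) = Q ∨ s ∩ (P ∪ Q) = {q} := by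
          intro s hs
          have hvs := mem_inter_of hvC (hv s hs)
          rcases (hE s hs).2 with h | h | h | h | h
          · rw [h] at hvs; exact absurd hvs (Finset.notMem_empty _)
          · rw [h] at hvs; exact absurd hvs hvP
          · rw [h, Finset.mem_singleton] at hvs; exact absurd hvs hvp
          · exact Or.inr h
          · exact Or.inl h
        refine ⟨q, ?_⟩
        rintro s (hs | ⟨s, hs, rfl⟩)
        · rcases key s hs with h | h
          · exact (Finset.mem_inter.1 (by rw [h]; exact hq : q ∈ s ∩ (P ∪ Q))).1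
          · exact (Finset.mem_inter.1 (h ▸ Finset.mem_singleton_self q : q ∈ s ∩ (P ∪ Q))).1
        · refine Finset.mem_union_left _ ?_
          unfold al1
          rcases key s hs with h | h
          · rw [h]
            split_ifs with e1
            · exact absurd (e1 ▸ hq : q ∈ P) hqP
            · exact Finset.mem_singleton_self q
            · exact hq
          · rw [h]
            split_ifs with e1 e2
            · exact absurd (e1 ▸ Finset.mem_singleton_self q : q ∈ P) hqP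
            · exact Finset.mem_singleton_self q
            · exact Finset.mem_singleton_self q
    · refine ⟨v, ?_⟩
      rintro s (hs | ⟨s, hs, rfl⟩)
      · exact hv s hs
      · exact (mem_repl_not (al1_subC hp hq s) hvC).2 (hv s hs)
  · right; left
    have hpq' : ({p} ∪ {q} : Finset V) ⊆ P ∪ Q := by
      intro a ha
      rw [Finset.mem_union, Finset.mem_singleton, Finset.mem_singleton] at ha
      rcases ha with rfl | rfl
      · exact Finset.mem_union_left _ hp
      · exact Finset.mem_union_right _ hq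
    rintro s (hs | ⟨s, hs, rfl⟩)
    · exact hF s hs
    · obtain ⟨e1, e2, e3⟩ := hF s hs
      refine ⟨con1_cl hp hq e1, ?_, ?_⟩
      · intro a ha
        exact e2 a (con1_sub hp hq s ha)
      · -- membership of `p` and `q` does not change
        have hmem : ∀ a ∈ ({p} ∪ {q} : Finset V), (a ∈ con1 P Q p q s ↔ a ∈ s) := by
          intro a ha
          have haC := hpq' ha
          refine ⟨fun h => con1_sub hp hq s h, fun h => ?_⟩
          refine Finset.mem_union_left _ ?_
          have has := mem_inter_of haC h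
          unfold al1
          split_ifs with h1 h2
          · rw [h1] at has
            rw [Finset.mem_union, Finset.mem_singleton, Finset.mem_singleton] at ha
            rcases ha with rfl | rfl
            · exact Finset.mem_singleton_self _
            · exact absurd has hqP
          · rw [h2] at has
            rw [Finset.mem_union, Finset.mem_singleton, Finset.mem_singleton] at ha
            rcases ha with rfl | rfl
            · exact absurd has hpQ
            · exact Finset.mem_singleton_self _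
          · exact has
        rcases e3 with e3 | e3
        · left
          intro a ha
          rw [hmem a ha, e3 a ha]
        · right
          intro a ha
          rw [hmem a ha, e3 a ha]
  · right; right
    refine ⟨P', Q', h1, h2, ?_⟩
    rintro s (hs | ⟨s, hs, rfl⟩)
    · exact h3 s hs
    · exact ent_repl h2 (h3 s hs) (al1_subC hp hq s) (con1_cl hp hq (h3 s hs).1)

/-- the family after the first contraction -/
def famY1 (B : Finset (Finset V × Finset V)) (P Q : Finset V) (p q : V) : Set (Set (Finset V)) :=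
  {X | X ∈ famY (G := G) (U := U) B P Q p q ∧
    ∀ s ∈ X, s ∩ (P ∪ Q) = ∅ ∨ s ∩ (P ∪ Q) = {p} ∨ s ∩ (P ∪ Q) = {q}}

theorem lower_famY1 : IsLowerSet (famY1 (G := G) (U := U) B P Q p q) := by
  rintro X Y hYX ⟨h1, h2⟩
  exact ⟨lower_famY _ _ _ _ _ hYX h1, fun s hs => h2 s (hYX hs)⟩

theorem step1' (hp : p ∈ P) (hq : q ∈ Q) (hd : Disjoint P Q) {X : Set (Finset V)}
    (hX : X ∈ famY (G := G) (U := U) B P Q p q) : con1 P Q p q '' X ∈ famY1 (G := G) (U := U) B P Q p q := by
  refine ⟨lower_famY _ _ _ _ _ Set.subset_union_right (step1 hp hq hd hX), ?_⟩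
  rintro _ ⟨s, hs, rfl⟩
  rw [con1, repl_inter (al1_subC hp hq s)]
  unfold al1
  rcases (hX.1 s hs).2 with h | h | h | h | h
  · split_ifs
    · exact Or.inr (Or.inl rfl)
    · exact Or.inr (Or.inr rfl)
    · exact Or.inl h
  · rw [if_pos h]; exact Or.inr (Or.inl rfl)
  · split_ifs
    · exact Or.inr (Or.inl rfl)
    · exact Or.inr (Or.inr rfl)
    · exact Or.inr (Or.inl h)
  · split_ifs
    · exact Or.inr (Or.inl rfl)
    · exact Or.inr (Or.inr rfl)
    · exact Or.inr (Or.inr h)
  · split_ifs with e1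
    · exact Or.inr (Or.inl rfl)
    · exact Or.inr (Or.inr rfl)

theorem al2_subC (hp : p ∈ P) (s : Finset V) : al2 p (s ∩ (P ∪ Q)) ⊆ P ∪ Q := by
  unfold al2
  split_ifs
  · exact Finset.singleton_subset_iff.2 (Finset.mem_union_left _ hp)
  · exact Finset.inter_subset_right

theorem con2_sup (hp : p ∈ P) {s : Finset V} : s ⊆ con2 P Q p s := by
  intro a ha
  by_cases haC : a ∈ P ∪ Q
  · have h := mem_inter_of haC ha
    refine Finset.mem_union_left _ ?_
    unfold al2
    rw [if_neg (Finset.ne_empty_of_mem h)]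
    exact h
  · exact (mem_repl_not (al2_subC hp s) haC).2 ha

theorem con2_cl (hp : p ∈ P) (hpU : p ∈ U) {s : Finset V} (hs : Cl G U s)
    (hE : ∀ a ∈ s, a ∉ P ∪ Q → ∀ c ∈ P ∪ Q, G.Adj a c) : Cl G U (con2 P Q p s) := by
  unfold con2 al2
  split_ifs with h
  · refine ⟨⟨p, Finset.mem_union_left _ (Finset.mem_singleton_self p)⟩, ?_, ?_⟩
    · exact Finset.union_subset (Finset.singleton_subset_iff.2 hpU)
        (Finset.sdiff_subset.trans hs.2.1)
    have hnot : ∀ a ∈ s \ (P ∪ Q), G.Adj a p := by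
      intro a ha
      rw [Finset.mem_sdiff] at ha
      exact hE a ha.1 ha.2 p (Finset.mem_union_left _ hp)
    intro a ha b hb hab
    rw [Finset.mem_coe, repl, Finset.mem_union, Finset.mem_singleton] at ha hb
    rcases ha with rfl | ha <;> rcases hb with rfl | hb
    · exact absurd rfl hab
    · exact (hnot b hb).symm
    · exact hnot a ha
    · exact hs.2.2 (by exact_mod_cast (Finset.mem_sdiff.1 ha).1)
        (by exact_mod_cast (Finset.mem_sdiff.1 hb).1) hab
  · rw [repl_self]
    exact hs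

theorem step2 (hp : p ∈ P) (hq : q ∈ Q) (hpU : p ∈ U) {X : Set (Finset V)}
    (hX : X ∈ famY1 (G := G) (U := U) B P Q p q) : X ∪ con2 P Q p '' X ∈ famY1 (G := G) (U := U) B P Q p q := by
  obtain ⟨⟨hE, hY⟩, hX1⟩ := hX
  have hE2 : ∀ s ∈ X, EE (G := G) P Q p q (con2 P Q p s) ∧
      (con2 P Q p s ∩ (P ∪ Q) = {p} ∨ con2 P Q p s ∩ (P ∪ Q) = {q}) := by
    intro s hs
    have h1 : con2 P Q p s ∩ (P ∪ Q) = {p} ∨ con2 P Q p s ∩ (P ∪ Q) = {q} := by
      rw [con2, repl_inter (al2_subC hp s)]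
      unfold al2
      split_ifs with h
      · exact Or.inl rfl
      · exact (hX1 s hs).resolve_left h
    refine ⟨⟨?_, ?_⟩, h1⟩
    · intro a ha haC c hc
      exact (hE s hs).1 a ((mem_repl_not (al2_subC hp s) haC).1 ha) haC c hc
    · rcases h1 with h | h
      · exact Or.inr (Or.inr (Or.inl h))
      · exact Or.inr (Or.inr (Or.inr (Or.inl h)))
  refine ⟨⟨?_, ?_⟩, ?_⟩
  · rintro s (hs | ⟨s, hs, rfl⟩)
    · exact hE s hs
    · exact (hE2 s hs).1
  · rcases hY with ⟨hcl, v, hv⟩ | hF | ⟨P', Q', h1, h2, h3⟩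
    · left
      refine ⟨?_, v, ?_⟩
      · rintro s (hs | ⟨s, hs, rfl⟩)
        · exact hcl s hs
        · exact con2_cl hp hpU (hcl s hs) (hE s hs).1
      · rintro s (hs | ⟨s, hs, rfl⟩)
        · exact hv s hs
        · exact con2_sup hp (hv s hs)
    · right; left
      rintro s (hs | ⟨s, hs, rfl⟩)
      · exact hF s hs
      · have hne : s ∩ (P ∪ Q) ≠ ∅ := by
          rcases (hF s hs).2.2 with e | e
          · have hps : p ∈ s := (e p (by simp)).2 (Finset.mem_singleton_self p)
            exact Finset.ne_empty_of_mem (mem_inter_of (Finset.mem_union_left _ hp) hps)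
          · have hqs : q ∈ s := (e q (by simp)).2 (Finset.mem_singleton_self q)
            exact Finset.ne_empty_of_mem (mem_inter_of (Finset.mem_union_right _ hq) hqs)
        have : con2 P Q p s = s := by
          unfold con2 al2
          rw [if_neg hne, repl_self]
        rw [this]
        exact hF s hs
    · right; right
      refine ⟨P', Q', h1, h2, ?_⟩
      rintro s (hs | ⟨s, hs, rfl⟩)
      · exact h3 s hs
      · exact ent_repl h2 (h3 s hs) (al2_subC hp s) (con2_cl hp hpU (h3 s hs).1 (hE s hs).1)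
  · rintro s (hs | ⟨s, hs, rfl⟩)
    · exact hX1 s hs
    · exact Or.inr (hE2 s hs).2

/-- the family after the second contraction -/
def famY2 (B : Finset (Finset V × Finset V)) (P Q : Finset V) (p q : V) : Set (Set (Finset V)) :=
  {X | X ∈ famY1 (G := G) (U := U) B P Q p q ∧ ∀ s ∈ X, s ∩ (P ∪ Q) = {p} ∨ s ∩ (P ∪ Q) = {q}}

theorem YY_cl {X : Set (Finset V)} (h : YY (G := G) (U := U) B P Q p q X) : ∀ s ∈ X, Cl G U s := by
  rcases h with h | h | ⟨P', Q', _, _, h⟩
  · exact h.1
  · exact fun s hs => (h s hs).1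
  · exact fun s hs => (h s hs).1

theorem acyc_famY2 (hp : p ∈ P) (hq : q ∈ Q) (hpU : p ∈ U) (hd : Disjoint P Q) :
    Acyc (famY2 (G := G) (U := U) B P Q p q) := by
  apply acyc_cone ({p} : Finset V)
  rintro X ⟨⟨⟨hE, hY⟩, hX1⟩, hX2⟩
  have hpC : p ∈ P ∪ Q := Finset.mem_union_left _ hp
  have hqC : q ∈ P ∪ Q := Finset.mem_union_right _ hq
  have hpq : p ≠ q := fun h => Finset.disjoint_left.1 hd hp (h ▸ hq)
  have hpI : ({p} : Finset V) ∩ (P ∪ Q) = {p} := by
    rw [Finset.inter_eq_left]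
    exact Finset.singleton_subset_iff.2 hpC
  have hEp : EE (G := G) P Q p q {p} := by
    refine ⟨?_, Or.inr (Or.inr (Or.inl hpI))⟩
    intro a ha haC
    rw [Finset.mem_singleton] at ha
    exact absurd (ha ▸ hpC) haC
  have hF : insert ({p} : Finset V) X ∈ famF G U {p} {q} := by
    rintro s (rfl | hs)
    · refine ⟨⟨Finset.singleton_nonempty p, Finset.singleton_subset_iff.2 hpU, by simp⟩, ?_, ?_⟩
      · intro a ha haC
        exact absurd (Finset.mem_union_left _ ha) haC
      · left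
        intro a _
        rfl
    · have hsp : ∀ a ∈ s, a ∉ ({p} ∪ {q} : Finset V) → a ∉ P ∪ Q := by
        intro a ha hapq haC
        have h := mem_inter_of haC ha
        rw [Finset.mem_union] at hapq
        push Not at hapq
        rcases hX2 s hs with e | e
        · exact hapq.1 (e ▸ h)
        · exact hapq.2 (e ▸ h)
      refine ⟨YY_cl hY s hs, ?_, ?_⟩
      · intro a ha hapq c hc
        rw [Finset.mem_union, Finset.mem_singleton, Finset.mem_singleton] at hc
        rcases hc with rfl | rfl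
        · exact (hE s hs).1 a ha (hsp a ha hapq) _ hpC
        · exact (hE s hs).1 a ha (hsp a ha hapq) _ hqC
      · have hm : ∀ a ∈ ({p} ∪ {q} : Finset V), (a ∈ s ↔ a ∈ s ∩ (P ∪ Q)) := by
          intro a ha
          rw [Finset.mem_inter]
          rw [Finset.mem_union, Finset.mem_singleton, Finset.mem_singleton] at ha
          rcases ha with rfl | rfl
          · tauto
          · tauto
        rcases hX2 s hs with e | e
        · left
          intro a ha
          rw [hm a ha, e]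
        · right
          intro a ha
          rw [hm a ha, e]
  refine ⟨⟨⟨?_, Or.inr (Or.inl hF)⟩, ?_⟩, ?_⟩
  · rintro s (rfl | hs)
    · exact hEp
    · exact hE s hs
  · rintro s (rfl | hs)
    · exact Or.inr (Or.inl hpI)
    · exact hX1 s hs
  · rintro s (rfl | hs)
    · exact Or.inl hpI
    · exact hX2 s hs

theorem acyc_famY (hp : p ∈ P) (hq : q ∈ Q) (hpU : p ∈ U) (hd : Disjoint P Q) :
    Acyc (famY (G := G) (U := U) B P Q p q) := by
  have h2 : Acyc (famY1 (G := G) (U := U) B P Q p q) := by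
    refine acyc_of_map lower_famY1 (con2 P Q p) (fun X hX => step2 hp hq hpU hX)
      (L := famY2 (G := G) (U := U) B P Q p q) ?_ (fun X hX => hX.1) (acyc_famY2 hp hq hpU hd)
    intro X hX
    refine ⟨lower_famY1 Set.subset_union_right (step2 hp hq hpU hX), ?_⟩
    rintro _ ⟨s, hs, rfl⟩
    rw [con2, repl_inter (al2_subC hp s)]
    unfold al2
    split_ifs with h
    · exact Or.inl rfl
    · exact (hX.2 s hs).resolve_left h
  exact acyc_of_map (lower_famY _ _ _ _ _) (con1 P Q p q) (fun X hX => step1 hp hq hd hX)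
    (fun X hX => step1' hp hq hd hX) (fun X hX => hX.1) h2

/-- the intersection with the rest lies in the acyclic family -/
theorem inter_sub (hI : Ind (G := G) (U := U) P Q) (h1 : (P, Q) ∉ B) (h2 : (Q, P) ∉ B) :
    famR (G := G) (U := U) B ∩ famF G U P Q ⊆ famY (G := G) (U := U) B P Q p q := by
  rintro X ⟨hR, hF⟩
  obtain ⟨hP, hQ, ⟨hd, _⟩, ⟨p0, hp0, q0, hq0, hpq0⟩, h3, hind⟩ := hI
  refine ⟨?_, ?_⟩
  · intro s hs
    obtain ⟨e1, e2, e3⟩ := hF s hs
    refine ⟨e2, ?_⟩
    rcases e3 with e3 | e3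
    · right; left
      ext a
      rw [Finset.mem_inter]
      constructor
      · rintro ⟨ha, haC⟩; exact (e3 a haC).1 ha
      · intro ha
        exact ⟨(e3 a (Finset.mem_union_left _ ha)).2 ha, Finset.mem_union_left _ ha⟩
    · right; right; right; right
      ext a
      rw [Finset.mem_inter]
      constructor
      · rintro ⟨ha, haC⟩; exact (e3 a haC).1 ha
      · intro ha
        exact ⟨(e3 a (Finset.mem_union_right _ ha)).2 ha, Finset.mem_union_right _ ha⟩
  by_cases hK : X ∈ famK G U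
  · exact Or.inl hK
  rcases hR with hR | ⟨P', Q', hPres, hF'⟩
  · exact Or.inl hR
  right; right
  refine ⟨P', Q', hPres, ?_, hF'⟩
  -- symmetric version of the argument
  have main : ∀ P1 Q1 P2 Q2 : Finset V, P1 ∪ Q1 = P ∪ Q → P2 ∪ Q2 = P' ∪ Q' →
      Disjoint P1 Q1 → Disjoint P2 Q2 → P1.Nonempty → Q1.Nonempty → P2.Nonempty → Q2.Nonempty →
      X ∈ famF G U P1 Q1 → X ∈ famF G U P2 Q2 →
      ∀ v, v ∈ P1 → v ∈ P2 → P1 = P2 ∧ Q1 = Q2 ∨ False := by
    intro P1 Q1 P2 Q2 hC hC' hd1 hd2 hP1 hQ1 hP2 hQ2 hF1 hF2 v hv1 hv2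
    left
    have hvQ1 : v ∉ Q1 := Finset.disjoint_left.1 hd1 hv1
    have hvQ2 : v ∉ Q2 := Finset.disjoint_left.1 hd2 hv2
    obtain ⟨⟨s1, hs1, e1⟩, ⟨s2, hs2, e2⟩⟩ := both hP1 hQ1 hF1 hK
    have e1' : ∀ a ∈ P2 ∪ Q2, (a ∈ s1 ↔ a ∈ P2) := by
      rcases (hF2 s1 hs1).2.2 with h | h
      · exact h
      · exact absurd ((h v (Finset.mem_union_left _ hv2)).1
          ((e1 v (Finset.mem_union_left _ hv1)).2 hv1)) hvQ2
    have e2' : ∀ a ∈ P2 ∪ Q2, (a ∈ s2 ↔ a ∈ Q2) := by
      rcases (hF2 s2 hs2).2.2 with h | h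
      · exact absurd ((e2 v (Finset.mem_union_left _ hv1)).1
          ((h v (Finset.mem_union_left _ hv2)).2 hv2)) hvQ1
      · exact h
    -- everything in one set but not in the other is adjacent to the other
    have adj1 : ∀ a ∈ P1 ∪ Q1, a ∉ P2 ∪ Q2 → ∀ c ∈ P2 ∪ Q2, G.Adj a c := by
      intro a ha ha' c hc
      rcases Finset.mem_union.1 ha with h | h
      · exact (hF2 s1 hs1).2.1 a ((e1 a ha).2 h) ha' c hc
      · exact (hF2 s2 hs2).2.1 a ((e2 a ha).2 h) ha' c hc
    have adj2 : ∀ a ∈ P2 ∪ Q2, a ∉ P1 ∪ Q1 → ∀ c ∈ P1 ∪ Q1, G.Adj a c := by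
      intro a ha ha' c hc
      rcases Finset.mem_union.1 ha with h | h
      · exact (hF1 s1 hs1).2.1 a ((e1' a ha).2 h) ha' c hc
      · exact (hF1 s2 hs2).2.1 a ((e2' a ha).2 h) ha' c hc
    have hvC1 : v ∈ P1 ∪ Q1 := Finset.mem_union_left _ hv1
    have hvC2 : v ∈ P2 ∪ Q2 := Finset.mem_union_left _ hv2
    have hsub : P1 ∪ Q1 ⊆ P2 ∪ Q2 := by
      have hD := hind ((P1 ∪ Q1) ∩ (P2 ∪ Q2)) (by rw [hC]; exact Finset.inter_subset_left)
        ⟨v, Finset.mem_inter.2 ⟨hvC1, hvC2⟩⟩ ?_
      · rw [← hC] at hD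
        exact Finset.inter_eq_left.1 hD
      · intro a ha c hc
        rw [← hC, Finset.mem_sdiff, Finset.mem_inter, not_and] at hc
        rw [Finset.mem_inter] at ha
        exact (adj1 c hc.1 (hc.2 hc.1) a ha.2).symm
    have hnc : ¬ G.IsClique ((P2 ∪ Q2 : Finset V) : Set V) := by
      intro hcl
      apply hpq0
      refine hcl ?_ ?_ (fun h => Finset.disjoint_left.1 hd hp0 (h ▸ hq0))
      · rw [Finset.mem_coe]
        exact hsub (by rw [hC]; exact Finset.mem_union_left _ hp0)
      · rw [Finset.mem_coe]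
        exact hsub (by rw [hC]; exact Finset.mem_union_right _ hq0)
    have hEq : P1 ∪ Q1 = P2 ∪ Q2 := by
      rcases hPres.2.2.2 with h | ⟨a, b, hab, _, ha, hb⟩ | ⟨_, h⟩
      · exact absurd (hC' ▸ h) hnc
      · exfalso
        have h4 := Finset.card_le_card hsub
        rw [hC, hC', ha, hb] at h4
        have h5 : ({a} ∪ {b} : Finset V).card ≤ 2 := (Finset.card_union_le _ _).trans (by simp)
        omega
      · have hD := h.2.2.2.2.2 ((P1 ∪ Q1) ∩ (P2 ∪ Q2)) (by rw [← hC']; exact Finset.inter_subset_right)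
          ⟨v, Finset.mem_inter.2 ⟨hvC1, hvC2⟩⟩ ?_
        · rw [← hC'] at hD
          exact hsub.antisymm (Finset.inter_eq_right.1 hD)
        · intro a ha c hc
          rw [← hC', Finset.mem_sdiff, Finset.mem_inter, not_and] at hc
          rw [Finset.mem_inter] at ha
          have hc1 : c ∉ P1 ∪ Q1 := fun h' => hc.2 h' hc.1
          exact (adj2 c hc.1 hc1 a ha.1).symm
    constructor
    · ext a
      constructor
      · intro ha
        have haC : a ∈ P1 ∪ Q1 := Finset.mem_union_left _ ha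
        exact (e1' a (hEq ▸ haC)).1 ((e1 a haC).2 ha)
      · intro ha
        have haC : a ∈ P2 ∪ Q2 := Finset.mem_union_left _ ha
        exact (e1 a (hEq ▸ haC)).1 ((e1' a haC).2 ha)
    · ext a
      constructor
      · intro ha
        have haC : a ∈ P1 ∪ Q1 := Finset.mem_union_right _ ha
        exact (e2' a (hEq ▸ haC)).1 ((e2 a haC).2 ha)
      · intro ha
        have haC : a ∈ P2 ∪ Q2 := Finset.mem_union_right _ ha
        exact (e2 a (hEq ▸ haC)).1 ((e2' a haC).2 ha)
  -- the pairs are different, so the supports are disjoint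
  have hne1 : ¬ (P = P' ∧ Q = Q') := by
    rintro ⟨rfl, rfl⟩
    rcases hPres.2.2.2 with h | ⟨a, b, hab, _, ha, hb⟩ | ⟨h, _⟩
    · apply hpq0
      refine h ?_ ?_ (fun h => Finset.disjoint_left.1 hd hp0 (h ▸ hq0))
      · rw [Finset.mem_coe]; exact Finset.mem_union_left _ hp0
      · rw [Finset.mem_coe]; exact Finset.mem_union_right _ hq0
    · rw [ha, hb] at h3
      have h5 : ({a} ∪ {b} : Finset V).card ≤ 2 := (Finset.card_union_le _ _).trans (by simp)
      omega
    · exact h1 h
  have hne2 : ¬ (P = Q' ∧ Q = P') := by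
    rintro ⟨rfl, rfl⟩
    rcases hPres.2.2.2 with h | ⟨a, b, hab, _, ha, hb⟩ | ⟨h, _⟩
    · apply hpq0
      refine h ?_ ?_ (fun h => Finset.disjoint_left.1 hd hp0 (h ▸ hq0))
      · rw [Finset.mem_coe]; exact Finset.mem_union_right _ hp0
      · rw [Finset.mem_coe]; exact Finset.mem_union_left _ hq0
    · rw [ha, hb] at h3
      have h5 : ({b} ∪ {a} : Finset V).card ≤ 2 := (Finset.card_union_le _ _).trans (by simp)
      omega
    · exact h2 h
  have hP' := hPres.1
  have hQ' := hPres.2.1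
  have hd' := hPres.2.2.1.1
  have hFs : X ∈ famF G U Q P := famF_symm P Q ▸ hF
  have hFs' : X ∈ famF G U Q' P' := famF_symm P' Q' ▸ hF'
  have hdisj : ∀ v, v ∈ P' ∪ Q' → v ∉ P ∪ Q := by
    intro v hv hv'
    rcases Finset.mem_union.1 hv' with h | h <;> rcases Finset.mem_union.1 hv with h' | h'
    · rcases main P Q P' Q' rfl rfl hd hd' hP hQ hP' hQ' hF hF' v h h' with e | e
      · exact hne1 e
      · exact e
    · rcases main P Q Q' P' rfl (Finset.union_comm _ _) hd hd'.symm hP hQ hQ' hP' hF hFs' v h h'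
        with e | e
      · exact hne2 e
      · exact e
    · rcases main Q P P' Q' (Finset.union_comm _ _) rfl hd.symm hd' hQ hP hP' hQ' hFs hF' v h h'
        with e | e
      · exact hne2 ⟨e.2, e.1⟩
      · exact e
    · rcases main Q P Q' P' (Finset.union_comm _ _) (Finset.union_comm _ _) hd.symm hd'.symm hQ hP
        hQ' hP' hFs hFs' v h h' with e | e
      · exact hne1 ⟨e.2, e.1⟩
      · exact e
  obtain ⟨⟨s1, hs1, e1⟩, ⟨s2, hs2, e2⟩⟩ := both hP' hQ' hF' hK
  intro a ha c hc
  rcases Finset.mem_union.1 ha with h | h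
  · exact (hF s1 hs1).2.1 a ((e1 a ha).2 h) (hdisj a ha) c hc
  · exact (hF s2 hs2).2.1 a ((e2 a ha).2 h) (hdisj a ha) c hc

end step

theorem removal_aux {n : ℕ} {z : Ch (Finset V) (n + 1)} (hz : z ∈ Sup (famK G U) (n + 1))
    (B : Finset (Finset V × Finset V)) (h : Bounds (famR (G := G) (U := U) B) z) :
    Bounds (famR (G := G) (U := U) ∅) z := by
  induction B using Finset.induction_on with
  | empty => exact h
  | insert x B hx ih =>
    obtain ⟨P, Q⟩ := x
    apply ih
    by_cases hI : Ind (G := G) (U := U) P Q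
    swap
    · refine h.mono ?_
      rintro X (hX | ⟨P', Q', hP', hX⟩)
      · exact Or.inl hX
      · refine Or.inr ⟨P', Q', ⟨hP'.1, hP'.2.1, hP'.2.2.1, ?_⟩, hX⟩
        rcases hP'.2.2.2 with h | h | ⟨h, h'⟩
        · exact Or.inl h
        · exact Or.inr (Or.inl h)
        · rcases Finset.mem_insert.1 h with e | e
          · rw [Prod.mk.injEq] at e
            exact absurd (e.1 ▸ e.2 ▸ h') hI
          · exact Or.inr (Or.inr ⟨e, h'⟩)
    obtain ⟨p, hp⟩ := hI.1
    obtain ⟨p0, hp0, q0, hq0, hpq0⟩ := hI.2.2.2.1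
    by_cases hsym : (Q, P) ∈ B
    · refine h.mono ?_
      rintro X (hX | ⟨P', Q', hP', hX⟩)
      · exact Or.inl hX
      · rcases hP'.2.2.2 with h | h | ⟨h, h'⟩
        · exact Or.inr ⟨P', Q', ⟨hP'.1, hP'.2.1, hP'.2.2.1, Or.inl h⟩, hX⟩
        · exact Or.inr ⟨P', Q', ⟨hP'.1, hP'.2.1, hP'.2.2.1, Or.inr (Or.inl h)⟩, hX⟩
        · rcases Finset.mem_insert.1 h with e | e
          · rw [Prod.mk.injEq] at e
            obtain ⟨rfl, rfl⟩ := e
            have hI' : Ind (G := G) (U := U) Q' P' := by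
              obtain ⟨i1, i2, ⟨i3, i4⟩, ⟨a, ha, b, hb, hab⟩, i5, i6⟩ := hI
              refine ⟨i2, i1, ⟨i3.symm, Finset.union_comm P' Q' ▸ i4⟩, ⟨b, hb, a, ha, fun h => hab h.symm⟩, ?_, ?_⟩
              · rw [Finset.union_comm]; exact i5
              · rw [Finset.union_comm]; exact i6
            exact Or.inr ⟨Q', P', ⟨hP'.2.1, hP'.1, hI'.2.2.1, Or.inr (Or.inr ⟨hsym, hI'⟩)⟩,
              famF_symm P' Q' ▸ hX⟩
          · exact Or.inr ⟨P', Q', ⟨hP'.1, hP'.2.1, hP'.2.2.1, Or.inr (Or.inr ⟨e, h'⟩)⟩, hX⟩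
    have hBR : Bounds (famR (G := G) (U := U) B ∪ famF G U P Q) z := by
      refine h.mono ?_
      rintro X (hX | ⟨P', Q', hP', hX⟩)
      · exact Or.inl (Or.inl hX)
      · rcases hP'.2.2.2 with h | h | ⟨h, h'⟩
        · exact Or.inl (Or.inr ⟨P', Q', ⟨hP'.1, hP'.2.1, hP'.2.2.1, Or.inl h⟩, hX⟩)
        · exact Or.inl (Or.inr ⟨P', Q', ⟨hP'.1, hP'.2.1, hP'.2.2.1, Or.inr (Or.inl h)⟩, hX⟩)
        · rcases Finset.mem_insert.1 h with e | e
          · rw [Prod.mk.injEq] at e
            obtain ⟨rfl, rfl⟩ := e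
            exact Or.inr hX
          · exact Or.inl (Or.inr ⟨P', Q', ⟨hP'.1, hP'.2.1, hP'.2.2.1, Or.inr (Or.inr ⟨e, h'⟩)⟩, hX⟩)
    refine removal (Y := famY (G := G) (U := U) B P Q p0 q0) (lower_famR B) (lower_famF P Q)
      (inter_sub hI hx hsym) ?_
      (acyc_famY hp0 hq0 (hI.2.2.1.2 (Finset.mem_union_left _ hp0)) hI.2.2.1.1)
      (Sup_mono (fun X hX => Or.inl hX) _ hz) hBR
    rintro X ⟨hE, hX | hX | ⟨P', Q', h1, h2, h3⟩⟩
    · exact Or.inl hX
    · refine Or.inr ⟨{p0}, {q0}, ⟨Finset.singleton_nonempty _, Finset.singleton_nonempty _,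
        ⟨?_, ?_⟩, Or.inr (Or.inl ⟨p0, q0, ?_, hpq0, rfl, rfl⟩)⟩, hX⟩
      · rw [Finset.disjoint_singleton]
        exact fun h => Finset.disjoint_left.1 hI.2.2.1.1 hp0 (h ▸ hq0)
      · exact Finset.union_subset
          (Finset.singleton_subset_iff.2 (hI.2.2.1.2 (Finset.mem_union_left _ hp0)))
          (Finset.singleton_subset_iff.2 (hI.2.2.1.2 (Finset.mem_union_right _ hq0)))
      · exact fun h => Finset.disjoint_left.1 hI.2.2.1.1 hp0 (h ▸ hq0)
    · exact Or.inr ⟨P', Q', h1, h3⟩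

/-- a cycle of `famK` that bounds in `famKK` bounds in `famA` -/
theorem removal_all {n : ℕ} {z : Ch (Finset V) (n + 1)}
    (hz : z ∈ Sup (famK G U) (n + 1)) (h : Bounds (famKK G U) z) : Bounds (famA G U) z := by
  classical
  have h1 : Bounds (famR (G := G) (U := U) (U.powerset ×ˢ U.powerset)) z := by
    refine h.mono ?_
    rintro X (hX | ⟨P, Q, hP, hQ, hd, hX⟩)
    · exact Or.inl hX
    · rcases reduce X _ P Q rfl hP hQ hd hX with hA | ⟨P', Q', hI, hX'⟩
      · rcases hA with hA | ⟨P', Q', hP', hQ', hd', hU', hc, hX'⟩ | ⟨a, b, hab, ha, hb, hadj, hX'⟩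
        · exact Or.inl hA
        · exact Or.inr ⟨P', Q', ⟨hP', hQ', ⟨hd', hU'⟩, Or.inl hc⟩, hX'⟩
        · exact Or.inr ⟨{a}, {b}, ⟨Finset.singleton_nonempty _, Finset.singleton_nonempty _,
            ⟨Finset.disjoint_singleton.2 hab, Finset.union_subset (Finset.singleton_subset_iff.2 ha)
              (Finset.singleton_subset_iff.2 hb)⟩, Or.inr (Or.inl ⟨a, b, hab, hadj, rfl, rfl⟩)⟩, hX'⟩
      · refine Or.inr ⟨P', Q', ⟨hI.1, hI.2.1, hI.2.2.1, Or.inr (Or.inr ⟨?_, hI⟩)⟩, hX'⟩
        rw [Finset.mem_product, Finset.mem_powerset, Finset.mem_powerset]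
        exact ⟨Finset.subset_union_left.trans hI.2.2.1.2, Finset.subset_union_right.trans hI.2.2.1.2⟩
  refine (removal_aux hz _ h1).mono ?_
  rintro X (hX | ⟨P, Q, hP, hX⟩)
  · exact Or.inl hX
  · rcases hP.2.2.2 with h | ⟨a, b, hab, hadj, ha, hb⟩ | ⟨h, _⟩
    · exact Or.inr (Or.inl ⟨P, Q, hP.1, hP.2.1, hP.2.2.1.1, hP.2.2.1.2, h, hX⟩)
    · refine Or.inr (Or.inr ⟨a, b, hab, ?_, ?_, hadj, ha ▸ hb ▸ hX⟩)
      · exact hP.2.2.1.2 (Finset.mem_union_left _ (ha ▸ Finset.mem_singleton_self a))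
      · exact hP.2.2.1.2 (Finset.mem_union_right _ (hb ▸ Finset.mem_singleton_self b))
    · exact absurd h (Finset.notMem_empty _)

end MP8a95ee.Tup
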