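import Mathlib

/-!
# Chains of tuples

Ordered simplicial chains of a family `K` of subsets of a type `S` (closed under subsets): real
combinations of tuples whose set of entries is in `K`.  The chain complex is augmented: the chains
of length `0` are the real multiples of the empty tuple.
-/

namespace MP8a95ee.Tup

noncomputable section

variable {S S' : Type*}

/-- finite real combinations of `n`-tuples of elements of `S` -/
abbrev Ch (S : Type*) (n : ℕ) : Type _ := (Fin n → S) →₀ ℝ

/-- the boundary of a chain of `(n + 1)`-tuples: alternating sum over omitted entries -/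
def bdry {n : ℕ} : Ch S (n + 1) →ₗ[ℝ] Ch S n :=
  Finsupp.linearCombination ℝ fun T : Fin (n + 1) → S =>
    ∑ i : Fin (n + 1), ((-1 : ℝ) ^ (i : ℕ)) • Finsupp.single (fun j => T (i.succAbove j)) (1 : ℝ)

theorem bdry_single {n : ℕ} (T : Fin (n + 1) → S) :
    bdry (Finsupp.single T (1 : ℝ)) =
      ∑ i : Fin (n + 1), ((-1 : ℝ) ^ (i : ℕ)) • Finsupp.single (fun j => T (i.succAbove j)) (1 : ℝ) := by
  simp [bdry]

/-- a new first entry -/
def cons {n : ℕ} (s : S) : Ch S n →ₗ[ℝ] Ch S (n + 1) :=
  Finsupp.linearCombination ℝ fun T : Fin n → S =>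
    Finsupp.single (Fin.cons s T : Fin (n + 1) → S) (1 : ℝ)

theorem cons_single {n : ℕ} (s : S) (T : Fin n → S) :
    cons s (Finsupp.single T (1 : ℝ)) = Finsupp.single (Fin.cons s T : Fin (n + 1) → S) (1 : ℝ) := by
  simp [cons]

/-- two linear maps that agree on tuples are equal -/
theorem ext_single {n : ℕ} {M : Type*} [AddCommGroup M] [Module ℝ M]
    {f g : Ch S n →ₗ[ℝ] M} (h : ∀ T, f (Finsupp.single T 1) = g (Finsupp.single T 1)) : f = g := by
  apply Finsupp.lhom_ext
  intro T r
  have h1 : (Finsupp.single T r : Ch S n) = r • Finsupp.single T (1 : ℝ) := by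
    rw [Finsupp.smul_single, smul_eq_mul, mul_one]
  rw [h1, map_smul, map_smul, h T]

theorem bdry_cons {n : ℕ} (s : S) (c : Ch S (n + 1)) :
    bdry (cons s c) = c - cons s (bdry c) := by
  have key : (bdry ∘ₗ cons s : Ch S (n + 1) →ₗ[ℝ] Ch S (n + 1)) =
      LinearMap.id - cons s ∘ₗ bdry := by
    apply ext_single
    intro T
    simp only [LinearMap.comp_apply, LinearMap.sub_apply, LinearMap.id_apply]
    rw [cons_single, bdry_single, bdry_single, Fin.sum_univ_succ, map_sum, sub_eq_add_neg,
      ← Finset.sum_neg_distrib]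
    congr 1
    · simp
    · apply Finset.sum_congr rfl
      intro i _
      rw [map_smul, cons_single, ← neg_smul]
      congr 1
      · simp [pow_succ]
      · congr 1
        funext j
        refine Fin.cases ?_ (fun k => ?_) j
        · simp
        · simp
  exact LinearMap.congr_fun key c

theorem bdry_cons_zero (s : S) (c : Ch S 0) : bdry (cons s c) = c := by
  have key : (bdry ∘ₗ cons s : Ch S 0 →ₗ[ℝ] Ch S 0) = LinearMap.id := by
    apply ext_single
    intro T
    simp only [LinearMap.comp_apply, LinearMap.id_apply]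
    rw [cons_single, bdry_single]
    simp only [Fin.sum_univ_succ, Fin.sum_univ_zero]
    simp
  exact LinearMap.congr_fun key c

/-- every chain is a combination of chains with a new first entry -/
theorem induction_cons {n : ℕ} {p : Ch S (n + 1) → Prop} (h0 : p 0)
    (hadd : ∀ c d, p c → p d → p (c + d)) (hc : ∀ s (c : Ch S n), p (cons s c))
    (c : Ch S (n + 1)) : p c := by
  induction c using Finsupp.induction_linear with
  | zero => exact h0
  | add c d hc hd => exact hadd c d hc hd
  | single T r =>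
    have h1 : (Finsupp.single T r : Ch S (n + 1)) = cons (T 0) (r • Finsupp.single (Fin.tail T) 1) := by
      rw [map_smul, cons_single, Fin.cons_self_tail, Finsupp.smul_single, smul_eq_mul, mul_one]
    rw [h1]
    exact hc _ _

theorem bdry_bdry {n : ℕ} (c : Ch S (n + 2)) : bdry (bdry c) = 0 := by
  induction n with
  | zero =>
    refine induction_cons (p := fun c => bdry (bdry c) = 0) (by simp) ?_ ?_ c
    · intro c d hc hd
      rw [map_add, map_add, hc, hd, add_zero]
    · intro s c
      rw [bdry_cons, map_sub, bdry_cons_zero, sub_self]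
  | succ n ih =>
    refine induction_cons (p := fun c => bdry (bdry c) = 0) (by simp) ?_ ?_ c
    · intro c d hc hd
      rw [map_add, map_add, hc, hd, add_zero]
    · intro s c
      rw [bdry_cons, map_sub, bdry_cons, ih, map_zero, sub_zero, sub_self]

/-- the chains of tuples whose set of entries is in `K` -/
def Sup (K : Set (Set S)) (n : ℕ) : Submodule ℝ (Ch S n) :=
  Finsupp.supported ℝ ℝ {T : Fin n → S | Set.range T ∈ K}

theorem single_mem {K : Set (Set S)} {n : ℕ} {T : Fin n → S} (h : Set.range T ∈ K) (r : ℝ) :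
    Finsupp.single T r ∈ Sup K n :=
  Finsupp.single_mem_supported ℝ r h

theorem Sup_mono {K L : Set (Set S)} (h : K ⊆ L) (n : ℕ) : Sup K n ≤ Sup L n :=
  Finsupp.supported_mono fun _ hT => h hT

/-- to prove that a linear map sends chains in `K` to a submodule one may look at tuples -/
theorem map_mem_of_single {K : Set (Set S)} {n : ℕ} {M : Type*} [AddCommGroup M] [Module ℝ M]
    (f : Ch S n →ₗ[ℝ] M) (N : Submodule ℝ M)
    (h : ∀ T : Fin n → S, Set.range T ∈ K → f (Finsupp.single T 1) ∈ N) {c : Ch S n}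
    (hc : c ∈ Sup K n) : f c ∈ N := by
  have h1 : c = ∑ T ∈ c.support, c T • Finsupp.single T (1 : ℝ) := by
    conv_lhs => rw [← Finsupp.sum_single c]
    rw [Finsupp.sum]
    apply Finset.sum_congr rfl
    intro T _
    rw [Finsupp.smul_single, smul_eq_mul, mul_one]
  rw [h1, map_sum]
  apply Submodule.sum_mem
  intro T hT
  rw [map_smul]
  exact N.smul_mem _ (h T ((Finsupp.mem_supported ℝ c).1 hc hT))

theorem bdry_mem {K : Set (Set S)} (hK : IsLowerSet K) {n : ℕ} {c : Ch S (n + 1)}
    (hc : c ∈ Sup K (n + 1)) : bdry c ∈ Sup K n := by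
  refine map_mem_of_single bdry (Sup K n) ?_ hc
  intro T hT
  rw [bdry_single]
  apply Submodule.sum_mem
  intro i _
  apply Submodule.smul_mem
  apply single_mem
  refine hK ?_ hT
  rintro _ ⟨j, rfl⟩
  exact ⟨_, rfl⟩

theorem cons_mem {K L : Set (Set S)} {n : ℕ} {s : S} (h : ∀ X ∈ K, insert s X ∈ L) {c : Ch S n}
    (hc : c ∈ Sup K n) : cons s c ∈ Sup L (n + 1) := by
  refine map_mem_of_single (cons s) (Sup L (n + 1)) ?_ hc
  intro T hT
  rw [cons_single]
  apply single_mem
  rw [Fin.range_cons]
  exact h _ hT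

/-! ### Acyclic families, cones and contiguous maps -/

/-- `K` is acyclic: every cycle of tuples of positive length bounds -/
def Acyc (K : Set (Set S)) : Prop :=
  ∀ (n : ℕ) (c : Ch S (n + 1)), c ∈ Sup K (n + 1) → bdry c = 0 →
    ∃ b ∈ Sup K (n + 2), bdry b = c

theorem acyc_cone {K : Set (Set S)} (s : S) (h : ∀ X ∈ K, insert s X ∈ K) : Acyc K := by
  intro n c hc h0
  refine ⟨cons s c, cons_mem h hc, ?_⟩
  rw [bdry_cons, h0, map_zero, sub_zero]

/-- the chain map of a map of entries -/
def mapCh (φ : S → S') {n : ℕ} : Ch S n →ₗ[ℝ] Ch S' n :=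
  Finsupp.linearCombination ℝ fun T : Fin n → S => Finsupp.single (fun j => φ (T j)) (1 : ℝ)

theorem mapCh_single (φ : S → S') {n : ℕ} (T : Fin n → S) :
    mapCh φ (Finsupp.single T (1 : ℝ)) = Finsupp.single (fun j => φ (T j)) (1 : ℝ) := by
  simp [mapCh]

theorem bdry_mapCh (φ : S → S') {n : ℕ} (c : Ch S (n + 1)) :
    bdry (mapCh φ c) = mapCh φ (bdry c) := by
  have key : (bdry ∘ₗ mapCh φ : Ch S (n + 1) →ₗ[ℝ] Ch S' n) = mapCh φ ∘ₗ bdry := by
    apply ext_single
    intro T
    simp only [LinearMap.comp_apply]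
    rw [mapCh_single, bdry_single, bdry_single, map_sum]
    apply Finset.sum_congr rfl
    intro i _
    rw [map_smul, mapCh_single]
  exact LinearMap.congr_fun key c

theorem mapCh_mem {K : Set (Set S)} {L : Set (Set S')} {φ : S → S'} {n : ℕ}
    (h : ∀ X ∈ K, φ '' X ∈ L) {c : Ch S n} (hc : c ∈ Sup K n) : mapCh φ c ∈ Sup L n := by
  refine map_mem_of_single (mapCh φ) (Sup L n) ?_ hc
  intro T hT
  rw [mapCh_single]
  apply single_mem
  have : Set.range (fun j => φ (T j)) = φ '' Set.range T := by
    rw [← Set.range_comp]; rfl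
  rw [this]
  exact h _ hT

/-- the chain homotopy from the identity to the chain map of `φ` -/
def hom (φ : S → S) : (n : ℕ) → Ch S n →ₗ[ℝ] Ch S (n + 1)
  | 0 => 0
  | n + 1 => Finsupp.linearCombination ℝ fun T : Fin (n + 1) → S =>
      cons (T 0) (mapCh φ (Finsupp.single T (1 : ℝ)) - Finsupp.single T (1 : ℝ) -
        hom φ n (bdry (Finsupp.single T (1 : ℝ))))

theorem hom_single (φ : S → S) (n : ℕ) (T : Fin (n + 1) → S) :
    hom φ (n + 1) (Finsupp.single T (1 : ℝ)) =
      cons (T 0) (mapCh φ (Finsupp.single T (1 : ℝ)) - Finsupp.single T (1 : ℝ) -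
        hom φ n (bdry (Finsupp.single T (1 : ℝ)))) := by
  simp [hom]

theorem bdry_hom (φ : S → S) (n : ℕ) (c : Ch S (n + 1)) :
    bdry (hom φ (n + 1) c) = mapCh φ c - c - hom φ n (bdry c) := by
  have key : (bdry ∘ₗ hom φ (n + 1) : Ch S (n + 1) →ₗ[ℝ] Ch S (n + 1)) =
      mapCh φ - LinearMap.id - hom φ n ∘ₗ bdry := by
    apply ext_single
    intro T
    simp only [LinearMap.comp_apply, LinearMap.sub_apply, LinearMap.id_apply]
    rw [hom_single, bdry_cons]
    have h0 : bdry (mapCh φ (Finsupp.single T (1 : ℝ)) - Finsupp.single T (1 : ℝ) -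
        hom φ n (bdry (Finsupp.single T (1 : ℝ)))) = 0 := by
      rw [map_sub, map_sub, bdry_mapCh]
      cases n with
      | zero =>
        have h1 : mapCh φ (bdry (Finsupp.single T (1 : ℝ))) = bdry (Finsupp.single T (1 : ℝ)) := by
          have h2 : (mapCh φ : Ch S 0 →ₗ[ℝ] Ch S 0) = LinearMap.id := by
            apply ext_single
            intro T'
            rw [mapCh_single, LinearMap.id_apply]
            congr 1
            funext j
            exact j.elim0
          rw [h2, LinearMap.id_apply]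
        rw [h1, sub_self]
        simp [hom]
      | succ n =>
        rw [bdry_hom φ n (bdry (Finsupp.single T (1 : ℝ))), bdry_bdry, map_zero]
        simp
    rw [h0, map_zero, sub_zero]
  exact LinearMap.congr_fun key c

theorem hom_mem_single (φ : S → S) (n : ℕ) (T : Fin n → S) :
    hom φ n (Finsupp.single T (1 : ℝ)) ∈ Sup (Set.Iic (Set.range T ∪ φ '' Set.range T)) (n + 1) := by
  induction n with
  | zero => simp [hom]
  | succ n ih =>
    rw [hom_single]
    refine cons_mem (K := Set.Iic (Set.range T ∪ φ '' Set.range T)) ?_ ?_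
    · intro X hX
      rw [Set.mem_Iic] at hX ⊢
      apply Set.insert_subset
      · exact Or.inl ⟨0, rfl⟩
      · exact hX
    · apply Submodule.sub_mem
      · apply Submodule.sub_mem
        · rw [mapCh_single]
          apply single_mem
          rintro _ ⟨j, rfl⟩
          exact Or.inr ⟨T j, ⟨j, rfl⟩, rfl⟩
        · apply single_mem
          exact Set.subset_union_left
      · rw [bdry_single, map_sum]
        apply Submodule.sum_mem
        intro i _
        rw [map_smul]
        apply Submodule.smul_mem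
        refine Sup_mono ?_ _ (ih fun j => T (i.succAbove j))
        apply Set.Iic_subset_Iic.2
        have h1 : Set.range (fun j => T (i.succAbove j)) ⊆ Set.range T := by
          rintro _ ⟨j, rfl⟩
          exact ⟨_, rfl⟩
        exact Set.union_subset_union h1 (Set.image_mono h1)

theorem hom_mem {K L : Set (Set S)} (hL : IsLowerSet L) (φ : S → S)
    (h : ∀ X ∈ K, X ∪ φ '' X ∈ L) {n : ℕ} {c : Ch S n} (hc : c ∈ Sup K n) :
    hom φ n c ∈ Sup L (n + 1) := by
  refine map_mem_of_single (hom φ n) (Sup L (n + 1)) ?_ hc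
  intro T hT
  refine Sup_mono ?_ _ (hom_mem_single φ n T)
  intro X hX
  exact hL hX (h _ hT)

/-- a cycle is homologous to its image under a contiguous map -/
theorem acyc_of_map {K L : Set (Set S)} (hK : IsLowerSet K) (φ : S → S)
    (h : ∀ X ∈ K, X ∪ φ '' X ∈ K) (hL : ∀ X ∈ K, φ '' X ∈ L) (hLK : L ⊆ K) (hA : Acyc L) :
    Acyc K := by
  intro n c hc h0
  have h1 : mapCh φ c ∈ Sup L (n + 1) := mapCh_mem hL hc
  have h2 : bdry (mapCh φ c) = 0 := by rw [bdry_mapCh, h0, map_zero]
  obtain ⟨b, hb, hb'⟩ := hA n _ h1 h2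
  refine ⟨b - hom φ (n + 1) c, Submodule.sub_mem _ (Sup_mono hLK _ hb) (hom_mem hK φ h hc), ?_⟩
  rw [map_sub, hb', bdry_hom, h0, map_zero, sub_zero]
  abel

/-- `z` is the boundary of a chain in `K` -/
def Bounds (K : Set (Set S)) {n : ℕ} (z : Ch S n) : Prop :=
  ∃ b ∈ Sup K (n + 1), bdry b = z

theorem Bounds.mono {K L : Set (Set S)} (h : K ⊆ L) {n : ℕ} {z : Ch S n} (hz : Bounds K z) :
    Bounds L z := by
  obtain ⟨b, hb, hb'⟩ := hz
  exact ⟨b, Sup_mono h _ hb, hb'⟩

/-- removal of a family `G` that meets the rest `R` inside an acyclic family `Y` of `R` -/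
theorem removal {R G Y : Set (Set S)} (hR : IsLowerSet R) (hG : IsLowerSet G)
    (hY : R ∩ G ⊆ Y) (hYR : Y ⊆ R) (hA : Acyc Y) {n : ℕ} {z : Ch S (n + 1)}
    (hz : z ∈ Sup R (n + 1)) (h : Bounds (R ∪ G) z) : Bounds R z := by
  classical
  obtain ⟨c, hc, hcz⟩ := h
  set c2 : Ch S (n + 2) := c.filter fun T => Set.range T ∈ R with hc2
  set c1 : Ch S (n + 2) := c.filter fun T => ¬ Set.range T ∈ R with hc1
  have hsum : c2 + c1 = c := Finsupp.filter_add_filter_not c _
  have h2 : c2 ∈ Sup R (n + 2) := by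
    rw [Sup, Finsupp.mem_supported]
    intro T hT
    rw [hc2, Finset.mem_coe, Finsupp.support_filter, Finset.mem_filter] at hT
    exact hT.2
  have h1 : c1 ∈ Sup G (n + 2) := by
    rw [Sup, Finsupp.mem_supported]
    intro T hT
    rw [hc1, Finset.mem_coe, Finsupp.support_filter, Finset.mem_filter] at hT
    have h3 := (Finsupp.mem_supported ℝ c).1 hc hT.1
    exact h3.resolve_left hT.2
  have hb1 : bdry c1 = z - bdry c2 := by
    rw [← hcz, ← hsum, map_add]; abel
  have hb1G : bdry c1 ∈ Sup G (n + 1) := bdry_mem hG h1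
  have hb1R : bdry c1 ∈ Sup R (n + 1) := by
    rw [hb1]
    exact Submodule.sub_mem _ hz (bdry_mem hR h2)
  have hb1Y : bdry c1 ∈ Sup Y (n + 1) := by
    rw [Sup, Finsupp.mem_supported] at hb1G hb1R ⊢
    intro T hT
    exact hY ⟨hb1R hT, hb1G hT⟩
  obtain ⟨b, hb, hb'⟩ := hA n _ hb1Y (bdry_bdry c1)
  refine ⟨b + c2, Submodule.add_mem _ (Sup_mono hYR _ hb) h2, ?_⟩
  rw [map_add, hb', hb1]
  abel

end

end MP8a95ee.Tup
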